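import Pool.Agent.Lib_helper41.HZF.Defs
import Pool.Agent.Lib_helper24.AS.Defs

/-!
# Positive proportion of critical zeros, Hecke L-functions of number fields: definitions
-/

namespace Pool.Agent.KS

open NumberField NumberField.InfinitePlace NumberField.Units Complex MeasureTheory Filter Topology
open Pool.Agent.HZ Pool.Agent.AS

variable (K : Type) [Field K] [NumberField K]

/-- The prime ideals. -/
abbrev PK := IsDedekindDomain.HeightOneSpectrum (𝓞 K)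

/-- The norm of a prime ideal. -/
noncomputable def NK (p : PK K) : ℕ := Ideal.absNorm p.asIdeal

variable {K}

/-- The ideal `∏ 𝔭^{g(𝔭)}`. -/
noncomputable def IK (g : PK K →₀ ℕ) : Ideal (𝓞 K) := g.prod fun p k => p.asIdeal ^ k

open scoped Classical in
/-- The primes dividing `𝔮`. -/
noncomputable def QK (𝔮 : Ideal (𝓞 K)) : Finset (PK K) :=
  if h : {p : PK K | p.asIdeal ∣ 𝔮}.Finite then h.toFinset else ∅

open scoped Classical in
/-- The coefficients `∑_{n_i ∣ 𝔠} a_i` for `𝔠` coprime to `𝔮`. -/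
noncomputable def bn (𝔮 : Ideal (𝓞 K)) {ι : Type} (J : Finset ι) (n : ι → Ideal (𝓞 K)) (a : ι → ℂ)
    (𝔠 : Ideal (𝓞 K)) : ℂ :=
  if 𝔠 ≠ ⊥ ∧ IsCoprime 𝔠 𝔮 then ∑ i ∈ J, (if n i ∣ 𝔠 then a i else 0) else 0

/-- `β(g) ψ(g) N g^{-1/2}`. -/
noncomputable def bK (L : ℝ) (ψ : Ideal (𝓞 K) →* ℂ) (g : PK K →₀ ℕ) : ℂ :=
  (be (NK K) L g : ℂ) * ψ (IK g) * (((√(nm (NK K) g : ℝ))⁻¹ : ℝ) : ℂ)

/-- `log N g`. -/
noncomputable def lK (g : PK K →₀ ℕ) : ℝ := Real.log (nm (NK K) g)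

/-- The density of `e^{itA/2} Λ |M|²` (up to the constant `C₀` of `mellin_kint`). -/
noncomputable def fK (L A : ℝ) (κ : InfinitePlace K → ℤ) (lam : InfinitePlace K → ℝ)
    (ψ : Ideal (𝓞 K) →* ℂ) (v : ℝ) : ℂ :=
  ∑ k ∈ ball (NK K) (Real.exp L), ∑ l ∈ ball (NK K) (Real.exp L),
    bK L ψ k * starRingEnd ℂ (bK L ψ l) * Dser ψ (Gf κ lam) (v + (lK k - lK l - A / 2))

/-- The density of `Λ M²` (up to the constant `C₀` of `mellin_kint`). -/
noncomputable def DK (L : ℝ) (κ : InfinitePlace K → ℤ) (lam : InfinitePlace K → ℝ)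
    (ψ : Ideal (𝓞 K) →* ℂ) (u : ℝ) : ℂ :=
  ∑ k ∈ ball (NK K) (Real.exp L), ∑ l ∈ ball (NK K) (Real.exp L),
    bK L ψ k * bK L ψ l * Dser ψ (Gf κ lam) (u + (lK k + lK l))

/-- The reference density: the term `𝔠 = 1` of `Dser ψ (Gf κ λ)`. -/
noncomputable def gK (κ : InfinitePlace K → ℤ) (lam : InfinitePlace K → ℝ) (u : ℝ) : ℂ :=
  (Real.exp (u / 2) : ℂ) * kint K (Gf κ lam) u

end Pool.Agent.KS
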